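import Pool.Agent.Helper93.T4.Main

namespace Pool.Agent.Results.MP_400093_an.SixPointDisproof

open Pool.Agent.Helper93.T4

/-- The rank-one convex hull of a finite set of upper triangular matrices can be strictly larger
than its `T₄`-convex hull: the six-point set `K6` is a counterexample, and the point `(1, 1, 0)`
of its hull is not even reached by iterating the hulls of all subsets with at most five points. -/
theorem result :
    (¬ ∀ K : Set Pt, K.Finite → rcHull K = t4Hull K) ∧
    K6.Finite ∧ K6.ncard = 6 ∧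
    ((1, 1, 0) : Pt) ∈ rcHull K6 ∧ (∀ i, ((1, 1, 0) : Pt) ∉ t4Iter K6 i) ∧
    ∀ i, ((1, 1, 0) : Pt) ∉ smallIter 5 K6 i := by
  have hK : K6 = Set.range pt := by
    ext X
    rw [mem_K6_iff]
    simp only [Set.mem_range, eq_comm]
  have hfin : K6.Finite := by rw [hK]; exact Set.finite_range pt
  have hno : ∀ i, ((1, 1, 0) : Pt) ∉ t4Iter K6 i := fun i hi =>
    not_mem_smallIter i (t4Iter_subset_smallIter K6 i hi)
  refine ⟨?_, hfin, ?_, mem_rcHull_K6, hno, not_mem_smallIter⟩
  · intro h
    have h1 : ((1, 1, 0) : Pt) ∈ t4Hull K6 := h K6 hfin ▸ mem_rcHull_K6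
    obtain ⟨i, hi⟩ := Set.mem_iUnion.1 h1
    exact hno i hi
  · rw [hK, ← Set.image_univ, Set.ncard_image_of_injective _ pt_injective, Set.ncard_univ]
    simp

end Pool.Agent.Results.MP_400093_an.SixPointDisproof
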